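import Pool.Agent.W734.STS.Stms

set_option autoImplicit false

/-!
Relative energies of finite range interactions are sums of a local observable over windows.
-/

namespace Pool.Agent.W382.STS

open Pool.Agent.W734.STS

/-- extension of a finite window by zero -/
def ex {r : ℕ} (x : Fin r → Fin 2) : Cf :=
  fun i => if h : 0 ≤ i ∧ i < (r : ℤ) then x ⟨i.toNat, by omega⟩ else 0

/-- finite sets inside `[0, r)` containing `0` -/
noncomputable def FF (r : ℕ) : Finset (Finset ℤ) :=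
  (Finset.Ico (0 : ℤ) r).powerset.filter (fun Λ => (0 : ℤ) ∈ Λ)

/-- the local observable -/
noncomputable def hh (Φ : Inter) (r : ℕ) (x : Fin r → Fin 2) : ℝ := ∑ Λ ∈ FF r, Φ.Φ Λ (ex x)

theorem mem_FF {r : ℕ} {Λ : Finset ℤ} :
    Λ ∈ FF r ↔ (∀ i ∈ Λ, 0 ≤ i ∧ i < (r : ℤ)) ∧ (0 : ℤ) ∈ Λ := by
  unfold FF
  rw [Finset.mem_filter, Finset.mem_powerset]
  constructor
  · rintro ⟨h1, h2⟩
    exact ⟨fun i hi => Finset.mem_Ico.1 (h1 hi), h2⟩
  · rintro ⟨h1, h2⟩
    exact ⟨fun i hi => Finset.mem_Ico.2 (h1 i hi), h2⟩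

theorem phi_image (Φ : Inter) (Λ : Finset ℤ) (b : ℤ) (Y : Cf) :
    Φ.Φ (Λ.image (fun i => i + b)) Y = Φ.Φ Λ (fun i => Y (i + b)) := by
  have h := Φ.inv Λ b (fun i => Y (i + b))
  have e : shift b (fun i => Y (i + b)) = Y := by
    funext i
    show Y (i - b + b) = Y i
    rw [sub_add_cancel]
  rw [e] at h
  exact h

theorem Hs_wrd (Φ : Inter) (r : ℕ) (Y : Cf) (a : ℤ) (N : ℕ) :
    Hs r (hh Φ r) (wrd Y a N) =
      ∑ t ∈ Finset.range (N + 1 - r), ∑ Λ ∈ FF r, Φ.Φ (Λ.image (fun i => i + (a + (t : ℤ)))) Y := by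
  unfold Hs
  have hl : (wrd Y a N).length = N := by simp [wrd]
  rw [hl]
  apply Finset.sum_congr rfl
  intro t ht
  unfold hh
  apply Finset.sum_congr rfl
  intro Λ hΛ
  rw [phi_image]
  apply Φ.loc
  intro i hi
  have h0 := (mem_FF.1 hΛ).1 i hi
  rw [Finset.mem_range] at ht
  unfold ex
  rw [dif_pos h0]
  show (wrd Y a N).getD (t + i.toNat) 0 = Y (i + (a + (t : ℤ)))
  have h1 : t + i.toNat < N := by omega
  have h2 : (wrd Y a N)[t + i.toNat]? = some (Y (a + ((t + i.toNat : ℕ) : ℤ))) := by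
    unfold wrd
    rw [List.getElem?_map, List.getElem?_range h1]
    rfl
  rw [List.getD_eq_getElem?_getD, h2, Option.getD_some]
  congr 1
  push_cast
  omega

theorem pair_inj {r : ℕ} {Λ Λ' : Finset ℤ} (h : Λ ∈ FF r) (h' : Λ' ∈ FF r) {b b' : ℤ}
    (e : Λ.image (fun i => i + b) = Λ'.image (fun i => i + b')) : b = b' ∧ Λ = Λ' := by
  rw [mem_FF] at h h'
  have hb : b = b' := by
    apply le_antisymm
    · have h1 : (0 : ℤ) + b' ∈ Λ.image (fun i => i + b) := by
        rw [e]; exact Finset.mem_image_of_mem (fun i => i + b') h'.2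
      obtain ⟨i, hi, hib⟩ := Finset.mem_image.1 h1
      have := (h.1 i hi).1
      omega
    · have h1 : (0 : ℤ) + b ∈ Λ'.image (fun i => i + b') := by
        rw [← e]; exact Finset.mem_image_of_mem (fun i => i + b) h.2
      obtain ⟨i, hi, hib⟩ := Finset.mem_image.1 h1
      have := (h'.1 i hi).1
      omega
  subst hb
  exact ⟨rfl, Finset.image_injective (add_left_injective b) e⟩

theorem frp : S_FR := by
  intro Φ ⟨r0, hr0⟩
  refine ⟨r0 + 1, hh Φ (r0 + 1), ?_⟩
  intro X Y a N hXY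
  rw [Hs_wrd, Hs_wrd, ← Finset.sum_sub_distrib]
  simp_rw [← Finset.sum_sub_distrib]
  rw [← Finset.sum_product']
  have hinj : Set.InjOn (fun p : ℕ × Finset ℤ => p.2.image (fun i => i + (a + (p.1 : ℤ))))
      ((Finset.range (N + 1 - (r0 + 1)) ×ˢ FF (r0 + 1) : Finset (ℕ × Finset ℤ)) :
        Set (ℕ × Finset ℤ)) := by
    rintro ⟨t, Λ⟩ hp ⟨t', Λ'⟩ hp' e
    have hp1 := (Finset.mem_product.1 (Finset.mem_coe.1 hp)).2
    have hp2 := (Finset.mem_product.1 (Finset.mem_coe.1 hp')).2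
    obtain ⟨h1, h2⟩ := pair_inj hp1 hp2 e
    have h3 : t = t' := by
      have h4 : a + (t : ℤ) = a + (t' : ℤ) := h1
      have : (t : ℤ) = t' := by linarith
      exact_mod_cast this
    exact Prod.ext h3 h2
  have key := Finset.sum_image (f := fun Λ : Finset ℤ => Φ.Φ Λ Y - Φ.Φ Λ X) hinj
  rw [← key]
  unfold Hrel
  apply tsum_eq_sum
  intro Λ hΛ
  by_contra hne
  apply hΛ
  -- a changed site
  have h1 : ∃ s ∈ Λ, Y s ≠ X s := by
    by_contra hcon
    push Not at hcon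
    apply hne
    rw [Φ.loc Λ Y X hcon, sub_self]
  obtain ⟨s, hs, hsne⟩ := h1
  have h2 : a + ((r0 + 1 : ℕ) : ℤ) ≤ s ∧ s < a + N - ((r0 + 1 : ℕ) : ℤ) := by
    by_contra hcon
    exact hsne (hXY s hcon)
  have hdiam : ∀ i ∈ Λ, ∀ j ∈ Λ, |i - j| ≤ (r0 : ℤ) := by
    by_contra hcon
    push Not at hcon
    obtain ⟨i, hi, j, hj, hij⟩ := hcon
    apply hne
    rw [hr0 Λ ⟨i, hi, j, hj, hij⟩, hr0 Λ ⟨i, hi, j, hj, hij⟩, sub_self]
  have hnon : Λ.Nonempty := ⟨s, hs⟩
  let m : ℤ := Λ.min' hnon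
  have hm : m ∈ Λ := Λ.min'_mem hnon
  have hmle : ∀ i ∈ Λ, m ≤ i := fun i hi => Λ.min'_le i hi
  have hms := hdiam s hs m hm
  have hms' := hmle s hs
  rw [abs_le] at hms
  rw [Finset.mem_image]
  refine ⟨((m - a).toNat, Λ.image (fun i => i - m)), ?_, ?_⟩
  · rw [Finset.mem_product]
    constructor
    · rw [Finset.mem_range]
      show (m - a).toNat < N + 1 - (r0 + 1)
      push_cast at h2
      omega
    · rw [mem_FF]
      constructor
      · intro i hi
        obtain ⟨j, hj, rfl⟩ := Finset.mem_image.1 hi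
        have h3 := hmle j hj
        have h4 := hdiam j hj m hm
        rw [abs_le] at h4
        push_cast
        constructor
        · omega
        · omega
      · rw [Finset.mem_image]
        exact ⟨m, hm, sub_self m⟩
  · show (Λ.image (fun i => i - m)).image (fun i => i + (a + (((m - a).toNat : ℕ) : ℤ))) = Λ
    have h5 : a + (((m - a).toNat : ℕ) : ℤ) = m := by
      push_cast at h2
      omega
    rw [h5, Finset.image_image]
    have h6 : ((fun i : ℤ => i + m) ∘ fun i => i - m) = id := by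
      funext i
      show i - m + m = i
      rw [sub_add_cancel]
    rw [h6, Finset.image_id]

end Pool.Agent.W382.STS
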